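import Pool.Agent.helper66.JS.Defs2

/-!
# Module V0: tapes in blocks
-/

set_option autoImplicit false

namespace Pool.Agent.helper66.JS

open Turing Finset

namespace V0aux

lemma range_split {j k : ℕ} (h : j < k) :
    List.range k = List.range j ++ j :: List.range' (j + 1) (k - (j + 1)) := by
  have h1 : k = j + (1 + (k - (j + 1))) := by omega
  conv_lhs => rw [h1, List.range_eq_range', ← List.range'_append_1]
  rw [← List.range_eq_range', Nat.zero_add, ← List.range'_append_1]
  simp

lemma flatMap_nil {L : List ℕ} {f : ℕ → List ℕ} (h : ∀ i ∈ L, f i = []) : L.flatMap f = [] := by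
  rw [List.flatMap_eq_nil_iff]
  exact h

lemma flatMap_congr' {L : List ℕ} {f f' : ℕ → List ℕ} (h : ∀ i ∈ L, f i = f' i) :
    L.flatMap f = L.flatMap f' := by
  induction L with
  | nil => rfl
  | cons a L ih =>
    rw [List.flatMap_cons, List.flatMap_cons, h a (by simp),
      ih (fun i hi => h i (List.mem_cons_of_mem _ hi))]

/-- splitting a flattened family at its first nonempty block -/
lemma flat_split {k s j : ℕ} (f : ℕ → List ℕ) (hj : j < k)
    (h0 : s = 0 → ∀ i, j < i → i < k → f i = []) (h1 : s ≠ 0 → ∀ i < j, f i = []) :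
    ∃ R : List ℕ, (∀ l, flat k s (Function.update f j l) = l ++ R) := by
  by_cases hs : s = 0
  · refine ⟨(List.range j).reverse.flatMap f, fun l => ?_⟩
    rw [flat, if_pos hs, range_split hj, List.reverse_append, List.reverse_cons,
      List.append_assoc, List.flatMap_append, List.flatMap_append]
    rw [flatMap_nil (f := Function.update f j l)]
    · simp only [List.nil_append, List.flatMap_cons, List.flatMap_nil, List.append_nil,
        Function.update_self]
      congr 1
      refine flatMap_congr' fun i hi => ?_
      rw [List.mem_reverse, List.mem_range] at hi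
      rw [Function.update_of_ne (by omega)]
    · intro i hi
      rw [List.mem_reverse, List.mem_range'_1] at hi
      rw [Function.update_of_ne (by omega)]
      exact h0 hs i (by omega) (by omega)
  · refine ⟨(List.range' (j + 1) (k - (j + 1))).flatMap f, fun l => ?_⟩
    rw [flat, if_neg hs, range_split hj, List.flatMap_append, List.flatMap_cons]
    rw [flatMap_nil (f := Function.update f j l)]
    · simp only [List.nil_append, Function.update_self]
      congr 1
      refine flatMap_congr' fun i hi => ?_
      rw [List.mem_range'_1] at hi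
      rw [Function.update_of_ne (by omega)]
    · intro i hi
      rw [List.mem_range] at hi
      rw [Function.update_of_ne (by omega)]
      exact h1 hs i hi

lemma upd_same (S : ℕ → ℕ → List ℕ) (s i : ℕ) (l : List ℕ) :
    upd S s i l s = Function.update (S s) i l := by
  rw [upd, Function.update_self]

lemma upd_ne (S : ℕ → ℕ → List ℕ) {s s' : ℕ} (h : s' ≠ s) (i : ℕ) (l : List ℕ) :
    upd S s i l s' = S s' := by
  rw [upd, Function.update_of_ne h]

lemma map_upd {L : List ℕ} {t : ℕ → ℕ} {p g : ℕ} (h : p ∉ L) :
    L.map (Function.update t p g) = L.map t := by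
  refine List.map_congr_left fun i hi => ?_
  rw [Function.update_of_ne]
  rintro rfl
  exact h hi

end V0aux

open V0aux

section V0
variable {k ℓ : ℕ}

theorem rep_start (hk : 0 < k) (hℓ : 0 < ℓ) (x : List Bool) :
    Rep k ℓ (Conf.start x) 0 (S0 ℓ (tape0 x)) := by
  refine ⟨hk, ?_, ?_, ?_, ?_, ?_⟩
  · exact Nat.mul_pos hk hℓ
  · intro s hs
    have hs' : s = 0 ∨ s = 1 := by omega
    rcases hs' with rfl | rfl
    · rw [flat, if_pos rfl, flatMap_nil]
      · simp [side, Conf.start]
      · intro i _
        simp [S0]
    · rw [flat, if_neg one_ne_zero, side, if_neg one_ne_zero]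
      simp only [Conf.start, Nat.zero_add]
      have key : ∀ k : ℕ, 0 < k → (List.range k).flatMap (S0 ℓ (tape0 x) 1)
          = (List.range' 1 (k * ℓ - 1)).map (tape0 x) := by
        intro k hk
        induction k with
        | zero => omega
        | succ k ih =>
          rcases Nat.eq_zero_or_pos k with rfl | hk0
          · simp [S0]
          · rw [List.range_succ, List.flatMap_append, ih hk0]
            simp only [List.flatMap_cons, List.flatMap_nil, List.append_nil]
            rw [S0, if_neg one_ne_zero, if_neg hk0.ne', ← List.map_append]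
            congr 1
            have h1 : 0 < k * ℓ := Nat.mul_pos hk0 hℓ
            have h2 : (k + 1) * ℓ - 1 = (k * ℓ - 1) + ℓ := by
              rw [Nat.succ_mul]; omega
            have h3 : k * ℓ = 1 + (k * ℓ - 1) := by omega
            rw [h2, ← List.range'_append_1, ← h3]
      exact key k hk
  · intro i _ _
    simp [S0]
  · intro i hi
    omega
  · intro i _
    simp only [S0, if_pos, List.length_nil, one_ne_zero, if_false]
    split_ifs with h
    · simp only [List.length_map, List.length_range']
      omega
    · simp only [List.length_map, List.length_range']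
      omega

theorem mid_of_rep {C : Conf} {j : ℕ} {S : ℕ → ℕ → List ℕ} (h : Rep k ℓ C j S) (d g : ℕ)
    (hd : d < 2) : Mid k ℓ C d g j (upd S d j (g :: S d j)) := by
  have hE0 : d = 0 → ∀ i, j < i → i < k → S d i = [] := by
    rintro rfl; exact h.E0
  have hE1 : d ≠ 0 → ∀ i < j, S d i = [] := by
    intro hd0
    have : d = 1 := by omega
    subst this
    exact h.E1
  refine ⟨h.hj, h.pos, ?_, ?_, ?_, ?_, ?_⟩
  · obtain ⟨R, hR⟩ := flat_split (s := d) (S d) h.hj hE0 hE1
    have h1 := hR (S d j)
    rw [Function.update_eq_self] at h1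
    rw [upd_same, hR, ← h.fl d hd, h1]
    rfl
  · rw [upd_ne _ (by omega)]
    exact h.fl _ (by omega)
  · intro i' h1 h2
    have hd' : d = 0 ∨ d = 1 := by omega
    rcases hd' with rfl | rfl
    · rw [upd_same, Function.update_of_ne (by omega)]
      exact h.E0 _ h1 h2
    · rw [upd_ne _ (by omega)]
      exact h.E0 _ h1 h2
  · intro i' h1
    have hd' : d = 0 ∨ d = 1 := by omega
    rcases hd' with rfl | rfl
    · rw [upd_ne _ (by omega)]
      exact h.E1 _ h1
    · rw [upd_same, Function.update_of_ne (by omega)]
      exact h.E1 _ h1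
  · intro i' h1
    have h2 := h.len i' h1
    have hd' : d = 0 ∨ d = 1 := by omega
    rcases hd' with rfl | rfl
    · rw [upd_same, upd_ne _ (by omega)]
      by_cases hi : i' = j
      · subst hi
        rw [Function.update_self, List.length_cons]
        rw [if_pos rfl] at h2
        omega
      · rw [Function.update_of_ne hi]
        rw [if_neg hi] at h2
        omega
    · rw [upd_same, upd_ne _ (by omega)]
      by_cases hi : i' = j
      · subst hi
        rw [Function.update_self, List.length_cons]
        rw [if_pos rfl] at h2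
        omega
      · rw [Function.update_of_ne hi]
        rw [if_neg hi] at h2
        omega

theorem mid_next0 {C : Conf} {g i : ℕ} {S : ℕ → ℕ → List ℕ} (h : Mid k ℓ C 0 g i S)
    (hS : S 1 i = []) (hi : i + 1 < k) : Mid k ℓ C 0 g (i + 1) S := by
  refine ⟨hi, h.pos, h.fd, h.fo, ?_, ?_, h.len⟩
  · intro i' h1 h2
    exact h.E0 i' (by omega) h2
  · intro i' h1
    by_cases h2 : i' = i
    · rw [h2, hS]
    · exact h.E1 i' (by omega)

theorem mid_next1 {C : Conf} {g i : ℕ} {S : ℕ → ℕ → List ℕ} (h : Mid k ℓ C 1 g i S)
    (hS : S 0 i = []) (hi : 1 ≤ i) : Mid k ℓ C 1 g (i - 1) S := by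
  have h0 := h.hi
  refine ⟨by omega, h.pos, h.fd, h.fo, ?_, ?_, h.len⟩
  · intro i' h1 h2
    by_cases h3 : i' = i
    · rw [h3, hS]
    · exact h.E0 i' (by omega) h2
  · intro i' h1
    exact h.E1 i' (by omega)

theorem rep_of_mid0 {C : Conf} {g i : ℕ} {S : ℕ → ℕ → List ℕ} (h : Mid k ℓ C 0 g i S)
    (g' : ℕ) (l : List ℕ) (hS : S 1 i = g' :: l) (q' : ℕ) :
    C.tape (C.pos + 1) = g' ∧
      Rep k ℓ ⟨q', C.pos + 1, Function.update C.tape C.pos g⟩ i (upd S 1 i l) := by
  obtain ⟨R, hR⟩ := flat_split (s := 1) (S 1) h.hi (fun h0 => absurd h0 one_ne_zero)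
    (fun _ => h.E1)
  have h1 := hR (S 1 i)
  rw [Function.update_eq_self] at h1
  have h2 : flat k 1 (S 1) = side (k * ℓ) 1 C := h.fo
  rw [h1, hS, side, if_neg one_ne_zero] at h2
  have hpos := h.pos
  rcases Nat.eq_zero_or_pos (k * ℓ - (C.pos + 1)) with h3 | h3
  · rw [h3] at h2
    simp at h2
  · obtain ⟨n, hn⟩ : ∃ n, k * ℓ - (C.pos + 1) = n + 1 := ⟨k * ℓ - (C.pos + 1) - 1, by omega⟩
    rw [hn, List.range'_succ, List.map_cons, List.cons_append, List.cons.injEq] at h2
    refine ⟨h2.1.symm, h.hi, ?_, ?_, ?_, ?_, ?_⟩
    · show C.pos + 1 < k * ℓ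
      omega
    · intro s hs
      have hs' : s = 0 ∨ s = 1 := by omega
      rcases hs' with rfl | rfl
      · rw [upd_ne _ (by omega)]
        have h4 : flat k 0 (S 0) = g :: side (k * ℓ) 0 C := h.fd
        rw [h4, side, side, if_pos rfl, if_pos rfl]
        simp only
        rw [List.range_succ, List.reverse_append, List.reverse_singleton, List.singleton_append,
          List.map_cons, Function.update_self, map_upd]
        simp
      · rw [upd_same, hR, h2.2, side, if_neg one_ne_zero]
        simp only
        have h5 : k * ℓ - (C.pos + 1 + 1) = n := by omega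
        rw [h5, map_upd]
        rw [List.mem_range'_1]
        omega
    · intro i' h4 h5
      rw [upd_ne _ (by omega)]
      exact h.E0 i' h4 h5
    · intro i' h4
      rw [upd_same, Function.update_of_ne (by omega)]
      exact h.E1 i' h4
    · intro i' h4
      have h5 := h.len i' h4
      rw [upd_ne _ (by omega), upd_same]
      by_cases h6 : i' = i
      · subst h6
        rw [hS, List.length_cons] at h5
        rw [Function.update_self, if_pos rfl]
        omega
      · rw [Function.update_of_ne h6, if_neg h6]
        omega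

theorem rep_of_mid1 {C : Conf} {g i : ℕ} {S : ℕ → ℕ → List ℕ} (h : Mid k ℓ C 1 g i S)
    (g' : ℕ) (l : List ℕ) (hS : S 0 i = g' :: l) (q' : ℕ) :
    ∃ p, C.pos = p + 1 ∧ C.tape p = g' ∧
      Rep k ℓ ⟨q', p, Function.update C.tape C.pos g⟩ i (upd S 0 i l) := by
  obtain ⟨R, hR⟩ := flat_split (s := 0) (S 0) h.hi (fun _ => h.E0) (fun h0 => absurd rfl h0)
  have h1 := hR (S 0 i)
  rw [Function.update_eq_self] at h1
  have h2 : flat k 0 (S 0) = side (k * ℓ) 0 C := h.fo
  rw [h1, hS, side, if_pos rfl] at h2
  have hpos := h.pos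
  rcases Nat.eq_zero_or_pos C.pos with h3 | h3
  · rw [h3] at h2
    simp at h2
  · obtain ⟨p, hp⟩ : ∃ p, C.pos = p + 1 := ⟨C.pos - 1, by omega⟩
    rw [hp, List.range_succ, List.reverse_append, List.reverse_singleton, List.singleton_append,
      List.map_cons, List.cons_append, List.cons.injEq] at h2
    refine ⟨p, hp, h2.1.symm, h.hi, ?_, ?_, ?_, ?_, ?_⟩
    · show p < k * ℓ
      omega
    · intro s hs
      have hs' : s = 0 ∨ s = 1 := by omega
      rcases hs' with rfl | rfl
      · rw [upd_same, hR, h2.2, side, if_pos rfl]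
        simp only
        rw [map_upd]
        rw [List.mem_reverse, List.mem_range]
        omega
      · rw [upd_ne _ (by omega)]
        have h4 : flat k 1 (S 1) = g :: side (k * ℓ) 1 C := h.fd
        rw [h4, side, side, if_neg one_ne_zero, if_neg one_ne_zero]
        simp only
        have h5 : k * ℓ - (p + 1) = (k * ℓ - (C.pos + 1)) + 1 := by omega
        rw [h5, List.range'_succ, List.map_cons, hp, Function.update_self, map_upd]
        rw [List.mem_range'_1]
        omega
    · intro i' h4 h5
      rw [upd_same, Function.update_of_ne (by omega)]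
      exact h.E0 i' h4 h5
    · intro i' h4
      rw [upd_ne _ (by omega)]
      exact h.E1 i' h4
    · intro i' h4
      have h5 := h.len i' h4
      rw [upd_ne (s' := 1) _ (by omega), upd_same]
      by_cases h6 : i' = i
      · subst h6
        rw [hS, List.length_cons] at h5
        rw [Function.update_self, if_pos rfl]
        omega
      · rw [Function.update_of_ne h6, if_neg h6]
        omega

theorem mid_ahead0 {C : Conf} {g i : ℕ} {S : ℕ → ℕ → List ℕ} (h : Mid k ℓ C 0 g i S)
    (hℓ : 0 < ℓ) (hp : C.pos + 1 < k * ℓ) (hS : S 1 i = []) :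
    i + 1 < k ∧ S 1 (i + 1) ≠ [] := by
  have h2 : flat k 1 (S 1) = side (k * ℓ) 1 C := h.fo
  have h3 : i + 1 < k := by
    by_contra hc
    rw [flat, if_neg one_ne_zero, flatMap_nil, side, if_neg one_ne_zero] at h2
    · have := congrArg List.length h2
      simp only [List.length_nil, List.length_map, List.length_range'] at this
      omega
    · intro i' hi'
      rw [List.mem_range] at hi'
      by_cases h4 : i' = i
      · rw [h4, hS]
      · exact h.E1 i' (by omega)
  refine ⟨h3, ?_⟩
  intro h4
  have h5 := h.len (i + 1) h3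
  rw [h4, h.E0 (i + 1) (by omega) h3] at h5
  simp at h5
  omega

theorem mid_ahead1 {C : Conf} {g i : ℕ} {S : ℕ → ℕ → List ℕ} (h : Mid k ℓ C 1 g i S)
    (hℓ : 0 < ℓ) (hp : 0 < C.pos) (hS : S 0 i = []) :
    1 ≤ i ∧ S 0 (i - 1) ≠ [] := by
  have h2 : flat k 0 (S 0) = side (k * ℓ) 0 C := h.fo
  have h0 := h.hi
  have h3 : 1 ≤ i := by
    by_contra hc
    rw [flat, if_pos rfl, flatMap_nil, side, if_pos rfl] at h2
    · have := congrArg List.length h2
      simp only [List.length_nil, List.length_map, List.length_reverse, List.length_range] at this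
      omega
    · intro i' hi'
      rw [List.mem_reverse, List.mem_range] at hi'
      by_cases h4 : i' = i
      · rw [h4, hS]
      · exact h.E0 i' (by omega) hi'
  refine ⟨h3, ?_⟩
  intro h4
  have h5 := h.len (i - 1) (by omega)
  rw [h4, h.E1 (i - 1) (by omega)] at h5
  simp at h5
  omega

theorem encL_lt {B : ℕ} {l : List ℕ} (h : ∀ g ∈ l, g + 1 < B) : encL B l < B ^ l.length := by
  induction l with
  | nil => simp [encL]
  | cons g l ih =>
    have h1 := ih (fun g' hg' => h g' (List.mem_cons_of_mem _ hg'))
    have h2 := h g (by simp)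
    rw [encL, List.length_cons, pow_succ]
    have h3 : B * (encL B l + 1) ≤ B * B ^ l.length := Nat.mul_le_mul_left _ h1
    calc g + 1 + B * encL B l < B + B * encL B l := by omega
      _ = B * (encL B l + 1) := by ring
      _ ≤ B * B ^ l.length := h3
      _ = B ^ l.length * B := mul_comm _ _

theorem encL_map (B : ℕ) (tape : ℕ → ℕ) (s n : ℕ) :
    encL B ((List.range' s n).map tape) = encT B tape s n := by
  induction n generalizing s with
  | zero => simp [encL, encT]
  | succ n ih =>
    rw [List.range'_succ, List.map_cons, encL, ih, encT, encT, Finset.sum_range_succ',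
      Finset.mul_sum, add_comm]
    simp only [pow_zero, mul_one, add_zero]
    congr 1
    refine Finset.sum_congr rfl fun i _ => ?_
    have : s + 1 + i = s + (i + 1) := by ring
    rw [this, pow_succ]
    ring

theorem CR_start (B k ℓ R0 : ℕ) (tape : ℕ → ℕ) :
    CR B k (S0 ℓ tape) (c0V B k ℓ R0 tape) := by
  intro s hs i hi
  have hs' : s = 0 ∨ s = 1 := by omega
  rcases hs' with rfl | rfl
  · rw [c0V, if_pos (by omega), if_neg (by omega), if_neg (by omega), S0, if_pos rfl, encL]
  · rw [c0V, if_pos (by omega), S0, if_neg one_ne_zero]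
    by_cases h : i = 0
    · rw [if_pos (by omega), if_pos h, encL_map]
    · rw [if_neg (by omega), if_pos (by omega), if_neg h, encL_map]
      congr 2
      omega

/-- all symbols in the lists come from the tape -/
theorem rep_good {B : ℕ} {C : Conf} {j : ℕ} {S : ℕ → ℕ → List ℕ} (h : Rep k ℓ C j S)
    (hC : ∀ i, C.tape i + 1 < B) : ∀ s < 2, ∀ i < k, ∀ g ∈ S s i, g + 1 < B := by
  intro s hs i hi g hg
  have h1 : g ∈ flat k s (S s) := by
    rw [flat]
    split_ifs
    · rw [List.mem_flatMap]
      exact ⟨i, by rw [List.mem_reverse, List.mem_range]; exact hi, hg⟩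
    · rw [List.mem_flatMap]
      exact ⟨i, by rw [List.mem_range]; exact hi, hg⟩
  rw [h.fl s hs, side] at h1
  split_ifs at h1
  · rw [List.mem_map] at h1
    obtain ⟨a, _, rfl⟩ := h1
    exact hC a
  · rw [List.mem_map] at h1
    obtain ⟨a, _, rfl⟩ := h1
    exact hC a
end V0

end Pool.Agent.helper66.JS
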