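import Pool.Agent.helper66.JS.Defs2

/-!
# Module U3: the net of a token machine is well formed
-/

set_option autoImplicit false

namespace Pool.Agent.helper66.JS

open Turing Finset

namespace U3aux

variable (T : Tok) (c0 : ℕ → ℕ) (N : ℕ)

lemma rule_last : (T.net c0 N).rule (2 * T.r) =
    ⟨0, 2 + T.acc, 2 + T.ns + T.e, 1, 2 + T.acc, 2 + T.ns + T.e, 2 + T.ns + T.f⟩ := by
  simp [Tok.net]

lemma rule_fwd {i : ℕ} (hi : i < T.r) : (T.net c0 N).rule (2 * i) =
    ⟨0, 2 + T.rp i, 2 + T.ns + T.rx i, 0, 2 + T.rq i, 2 + T.ns + T.ry i, 2 + T.ns + T.rl i⟩ := by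
  have h1 : 2 * i ≠ 2 * T.r := by omega
  have h2 : 2 * i % 2 = 0 := by omega
  have h3 : 2 * i / 2 = i := by omega
  simp only [Tok.net, if_neg h1, if_pos h2, h3]

lemma rule_bwd {i : ℕ} (hi : i < T.r) : (T.net c0 N).rule (2 * i + 1) =
    ⟨1, 2 + T.rq i, 2 + T.ns + T.ry i, 1, 2 + T.rp i, 2 + T.ns + T.rx i, 2 + T.ns + T.rl i⟩ := by
  have h1 : 2 * i + 1 ≠ 2 * T.r := by omega
  have h2 : ¬ (2 * i + 1) % 2 = 0 := by omega
  have h3 : (2 * i + 1) / 2 = i := by omega
  simp only [Tok.net, if_neg h1, if_neg h2, h3]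

lemma rule_cases {P : Rule → Prop}
    (h1 : P ⟨0, 2 + T.acc, 2 + T.ns + T.e, 1, 2 + T.acc, 2 + T.ns + T.e, 2 + T.ns + T.f⟩)
    (h2 : ∀ i < T.r, P ⟨0, 2 + T.rp i, 2 + T.ns + T.rx i, 0, 2 + T.rq i, 2 + T.ns + T.ry i,
      2 + T.ns + T.rl i⟩)
    (h3 : ∀ i < T.r, P ⟨1, 2 + T.rq i, 2 + T.ns + T.ry i, 1, 2 + T.rp i, 2 + T.ns + T.rx i,
      2 + T.ns + T.rl i⟩) (i : ℕ) (hi : i < (T.net c0 N).r) : P ((T.net c0 N).rule i) := by
  have hi' : i < 2 * T.r + 1 := hi
  by_cases h : i = 2 * T.r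
  · subst h
    rw [rule_last]
    exact h1
  · obtain ⟨k, hk | hk⟩ : ∃ k, i = 2 * k ∨ i = 2 * k + 1 := ⟨i / 2, by omega⟩
    · subst hk
      rw [rule_fwd T c0 N (by omega)]
      exact h2 _ (by omega)
    · subst hk
      rw [rule_bwd T c0 N (by omega)]
      exact h3 _ (by omega)

lemma sum_pairs {M : Type} [AddCommMonoid M] (g : ℕ → M) (r : ℕ) :
    ∑ i ∈ range (2 * r), g i = ∑ i ∈ range r, (g (2 * i) + g (2 * i + 1)) := by
  induction r with
  | zero => simp
  | succ r ih =>
    have : 2 * (r + 1) = 2 * r + 1 + 1 := by ring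
    rw [this, sum_range_succ, sum_range_succ, ih, sum_range_succ, add_assoc]

lemma sum_mult : ∑ i ∈ range (T.net c0 N).r, (T.net c0 N).mult i = 2 * T.r * N + 1 := by
  show ∑ i ∈ range (2 * T.r + 1), (if i = 2 * T.r then 1 else N) = _
  rw [sum_range_succ, if_pos rfl]
  congr 1
  rw [sum_congr rfl (g := fun _ => N)]
  · simp
  · intro i hi
    rw [mem_range] at hi
    rw [if_neg (by omega)]

end U3aux

open U3aux

/-! ### module U3 -/
theorem tok_net_ok (T : Tok) (hT : T.Ok) (c0 : ℕ → ℕ) (N : ℕ) (he : 0 < c0 T.e) :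
    (T.net c0 N).Ok := by
  have hacc := hT.acc
  have hE := hT.e
  have hF := hT.f
  have hp0 := hT.p0
  have ha : (T.net c0 N).a = 2 + T.ns + T.nc := rfl
  refine ⟨?_, ?_, ?_, ?_, ?_, ?_, ?_, ?_⟩
  · show 0 < T.r + 1
    omega
  · refine rule_cases T c0 N (P := fun R => R.i0 < R.i1 ∧ R.i1 < R.i2 ∧ R.i2 < (T.net c0 N).a) ?_ ?_ ?_
    · dsimp only
      omega
    · intro i hi
      have h1 := hT.rp i hi
      have h2 := (hT.rx i hi).1
      dsimp only
      omega
    · intro i hi
      have h1 := hT.rq i hi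
      have h2 := (hT.ry i hi).1
      dsimp only
      omega
  · refine rule_cases T c0 N (P := fun R => R.o0 < R.o1 ∧ R.o1 < R.o2 ∧ R.o2 < (T.net c0 N).a) ?_ ?_ ?_
    · dsimp only
      omega
    · intro i hi
      have h1 := hT.rq i hi
      have h2 := (hT.ry i hi).1
      dsimp only
      omega
    · intro i hi
      have h1 := hT.rp i hi
      have h2 := (hT.rx i hi).1
      dsimp only
      omega
  · refine rule_cases T c0 N (P := fun R => R.l < (T.net c0 N).a) ?_ ?_ ?_
    · dsimp only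
      omega
    · intro i hi
      have h1 := (hT.rl i hi).1
      dsimp only
      omega
    · intro i hi
      have h1 := (hT.rl i hi).1
      dsimp only
      omega
  · intro z _
    by_cases hz : z = 0
    · subst hz
      have h2 : 2 + T.ns + T.nc = (T.ns + T.nc) + 1 + 1 := by ring
      rw [ha, h2, sum_range_succ', sum_range_succ', sum_range_succ', sum_range_succ']
      simp only [Tok.net]
      simp only [if_true, Nat.zero_add, one_ne_zero, if_false, add_eq_zero, and_false,
        Nat.add_eq_right, Nat.succ_ne_zero]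
    · simp only [Tok.net, if_neg hz]
  · rw [sum_mult]
    exact le_refl _
  · rw [sum_mult]
    have h1 : (T.net c0 N).tok 0 ≤ ∑ z ∈ range (T.net c0 N).Zn, (T.net c0 N).tok z := by
      refine single_le_sum (f := fun z => (T.net c0 N).tok z) (fun _ _ => Nat.zero_le _) ?_
      rw [mem_range]
      exact Nat.succ_pos _
    have h2 : 4 ≤ (T.net c0 N).tok 0 := by
      have h3 : ∑ s ∈ ({0, 2 + T.p0} : Finset ℕ), (T.net c0 N).c0 0 s
          ≤ ∑ s ∈ range (T.net c0 N).a, (T.net c0 N).c0 0 s := by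
        refine sum_le_sum_of_subset fun s hs => ?_
        rw [mem_insert, mem_singleton] at hs
        rw [mem_range, ha]
        omega
      rw [sum_pair (by omega)] at h3
      have h4 : (T.net c0 N).c0 0 0 = 1 := by simp [Tok.net]
      have h5 : (T.net c0 N).c0 0 (2 + T.p0) = 1 := by
        have a1 : ¬ 2 + T.p0 = 0 := by omega
        have a2 : ¬ 2 + T.p0 = 1 := by omega
        have a3 : 2 + T.p0 < 2 + T.ns := by omega
        simp only [Tok.net, if_true, if_neg a1, if_neg a2, if_pos a3]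
      rw [h4, h5] at h3
      rw [Net.tok]
      omega
    have h3 : (T.net c0 N).Cyc = 2 * (2 * T.r * N + 1) := rfl
    rw [h3]
    calc 7 * (2 * T.r * N + 1) ≤ 8 * (2 * T.r * N + 1) := by omega
      _ = 4 * (2 * (2 * T.r * N + 1)) := by ring
      _ ≤ _ := Nat.mul_le_mul_right _ (h2.trans h1)
  · have h1 : ∑ z ∈ range (T.net c0 N).Zn, ∑ s ∈ range (T.net c0 N).a,
        (((T.net c0 N).c0 z s : ℤ) - (T.net c0 N).cf z s) * s = -1 := by
      show ∑ z ∈ range (T.r + 1), ∑ s ∈ range (T.net c0 N).a,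
        (((T.net c0 N).c0 z s : ℤ) - (T.net c0 N).cf z s) * s = -1
      rw [sum_range_succ', sum_eq_zero, zero_add]
      · have h2 : 2 + T.ns + T.nc = (T.ns + T.nc) + 1 + 1 := by ring
        rw [ha, h2, sum_range_succ', sum_range_succ', sum_eq_zero]
        · simp [Tok.net]
        · intro s _
          simp [Tok.net]
      · intro z _
        refine sum_eq_zero fun s _ => ?_
        simp [Tok.net]
    have h2 : ∑ i ∈ range (T.net c0 N).r, ((T.net c0 N).mult i : ℤ) *
        ((((T.net c0 N).rule i).o0 + ((T.net c0 N).rule i).o1 + ((T.net c0 N).rule i).o2 : ℤ) -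
        (((T.net c0 N).rule i).i0 + ((T.net c0 N).rule i).i1 + ((T.net c0 N).rule i).i2)) = 1 := by
      show ∑ i ∈ range (2 * T.r + 1), _ = _
      rw [sum_range_succ, sum_pairs, sum_eq_zero, zero_add, rule_last]
      · have h3 : (T.net c0 N).mult (2 * T.r) = 1 := if_pos rfl
        rw [h3]
        push_cast
        ring
      · intro i hi
        rw [mem_range] at hi
        have h3 : (T.net c0 N).mult (2 * i) = N := if_neg (by omega)
        have h4 : (T.net c0 N).mult (2 * i + 1) = N := if_neg (by omega)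
        rw [h3, h4, rule_fwd T c0 N hi, rule_bwd T c0 N hi]
        push_cast
        ring
    rw [h1, h2]
    norm_num

end Pool.Agent.helper66.JS
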