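import Pool.Agent.helper66.JS.Defs2

/-!
# Module V3: the token machine is well formed
-/

set_option autoImplicit false

namespace Pool.Agent.helper66.JS

open Turing Finset

namespace V3aux

lemma dig_lt {A M a b : ℕ} (ha : a < A) (hb : b < M) : a + A * b < A * M := by
  have h1 : A * (b + 1) ≤ A * M := Nat.mul_le_mul_left _ hb
  have h2 : A * (b + 1) = A * b + A := by ring
  omega

lemma sc_lt {B Q k ty d j q g h : ℕ} (hty : ty < 8) (hd : d < 2) (hj : j < k) (hq : q < Q)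
    (hg : g < B) (hh : h < B) : sc B Q ty d j q g h < 16 * B * B * Q * k := by
  have h1 := dig_lt hty (dig_lt hd (dig_lt hg (dig_lt hh (dig_lt hq hj))))
  rw [sc]
  calc _ < 8 * (2 * (B * (B * (Q * k)))) := h1
    _ = 16 * B * B * Q * k := by ring

/-- what we need of a rule -/
structure G (k N : ℕ) (r : ℕ × ℕ × ℕ × ℕ × ℕ) : Prop where
  p : r.1 < N
  q : r.2.1 < N
  x : r.2.2.1 < 2 * k + 4 ∧ r.2.2.1 ≠ 2 * k + 3
  y : r.2.2.2.1 < 2 * k + 4 ∧ r.2.2.2.1 ≠ 2 * k + 3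
  l : r.2.2.2.2 < 2 * k + 4 ∧ r.2.2.2.2 ≠ r.2.2.1 ∧ r.2.2.2.2 ≠ r.2.2.2.1
  e : r.2.2.1 = 2 * k + 2 ↔ r.2.2.2.1 = 2 * k + 2

lemma mkG {k N p q x y l : ℕ} (hp : p < N) (hq : q < N) (hx : x < 2 * k + 4) (hx' : x ≠ 2 * k + 3)
    (hy : y < 2 * k + 4) (hy' : y ≠ 2 * k + 3) (hl : l < 2 * k + 4) (hlx : l ≠ x) (hly : l ≠ y)
    (he : x = 2 * k + 2 ↔ y = 2 * k + 2) : G k N (p, q, x, y, l) :=
  ⟨hp, hq, ⟨hx, hx'⟩, ⟨hy, hy'⟩, ⟨hl, hlx, hly⟩, he⟩

lemma G_ite {k N : ℕ} {c : Prop} [Decidable c] {a b : ℕ × ℕ × ℕ × ℕ × ℕ} (h1 : c → G k N a)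
    (h2 : ¬ c → G k N b) : G k N (if c then a else b) := by
  split_ifs with h
  · exact h1 h
  · exact h2 h

lemma ruleV_good (δ : NTM) (B Q k : ℕ) (hB : BOk δ B Q) (hk : 0 < k) (i : ℕ) :
    G k (16 * B * B * Q * k) (ruleV δ B Q k i) := by
  have hB4 := hB.B4
  have hQ2 := hB.Q2
  have hst := hB.st
  have hsy := hB.sy
  have hd : i / 16 % 2 < 2 := Nat.mod_lt _ (by norm_num)
  have hg : i / 32 % B < B := Nat.mod_lt _ (by omega)
  have hh : i / (32 * B) % B < B := Nat.mod_lt _ (by omega)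
  have hq : i / (32 * B * B) % Q < Q := Nat.mod_lt _ (by omega)
  have hj : i / (32 * B * B * Q) % k < k := Nat.mod_lt _ hk
  have hdead : G k (16 * B * B * Q * k)
      (sc B Q 7 0 0 0 0 0, sc B Q 7 0 0 0 0 0, 2 * k + 2, 2 * k + 2, 2 * k + 3) := by
    refine mkG ?_ ?_ ?_ ?_ ?_ ?_ ?_ ?_ ?_ ?_
    · exact sc_lt (by norm_num) (by norm_num) hk (by omega) (by omega) (by omega)
    · exact sc_lt (by norm_num) (by norm_num) hk (by omega) (by omega) (by omega)
    all_goals omega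
  unfold ruleV
  dsimp only
  generalize i / 16 % 2 = d at *
  generalize i / 32 % B = g at *
  generalize i / (32 * B) % B = h at *
  generalize i / (32 * B * B) % Q = q at *
  generalize i / (32 * B * B * Q) % k = j at *
  generalize i / (32 * B * B * Q * k) = t at *
  generalize i % 16 = ty at *
  refine G_ite (fun h0 => ?_) (fun h0 => ?_)
  · split
    · exact hdead
    · rename_i q1 g1 q2 g2 right heq
      have hm := List.mem_of_getElem? heq
      have h1 := hst _ hm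
      have h2 := hsy _ hm
      dsimp only at h1 h2
      refine mkG ?_ ?_ ?_ ?_ ?_ ?_ ?_ ?_ ?_ ?_
      · exact sc_lt (by norm_num) (by norm_num) hj (by omega) (by omega) (by omega)
      · refine sc_lt (by norm_num) ?_ hj (by omega) (by omega) (by omega)
        split_ifs <;> norm_num
      all_goals omega
  clear h0
  repeat' (first
    | exact hdead
    | refine G_ite (fun _ => ?_) (fun _ => ?_))
  all_goals
    refine mkG ?_ ?_ ?_ ?_ ?_ ?_ ?_ ?_ ?_ ?_
    · refine sc_lt ?_ ?_ ?_ ?_ ?_ ?_ <;> omega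
    · refine sc_lt ?_ ?_ ?_ ?_ ?_ ?_ <;> omega
    all_goals omega

end V3aux

open V3aux

theorem tokV_ok (δ : NTM) (B Q k g0 : ℕ) (hB : BOk δ B Q) (hk : 0 < k) (hg : g0 + 1 < B) :
    (tokV δ B Q k g0).Ok := by
  have hQ2 := hB.Q2
  have hB4 := hB.B4
  refine ⟨?_, ?_, ?_, ?_, ?_, ?_, ?_, ?_, ?_, ?_, ?_⟩
  · exact sc_lt (by norm_num) (by norm_num) hk (by omega) hg (by omega)
  · exact sc_lt (by norm_num) (by norm_num) hk (by omega) (by omega) (by omega)
  · show 2 * k + 2 < 2 * k + 4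
    omega
  · show 2 * k + 3 < 2 * k + 4
    omega
  · show 2 * k + 2 ≠ 2 * k + 3
    omega
  · intro i _
    exact (ruleV_good δ B Q k hB hk i).p
  · intro i _
    exact (ruleV_good δ B Q k hB hk i).q
  · intro i _
    exact (ruleV_good δ B Q k hB hk i).x
  · intro i _
    exact (ruleV_good δ B Q k hB hk i).y
  · intro i _
    exact (ruleV_good δ B Q k hB hk i).l
  · intro i _
    exact (ruleV_good δ B Q k hB hk i).e

end Pool.Agent.helper66.JS
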